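import Pool.Agent.Lib.MP_7252b7_al_h9.Closure

/-!
# Covering subgroups in all finite groups: a necessary condition on hereditary local formations
-/

set_option autoImplicit false

namespace Pool.Agent.Lib.MP_7252b7_al_old.EvenDichotomy

open Pool.Agent.CoveringSubgroups Pool.Agent.CoveringSubgroups.H9

/-- Let `F` be a hereditary local formation of finite soluble groups with `2 ∈ π(F)`, such that
every finite group has an `F`-covering subgroup.  Then either `F` is closed under extensions by
normal `2`-subgroups, or `F(q)` is not contained in `F(2)` for some `q ∈ π(F)`, and for every such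
`q` and every `k` with `q ∣ 2 ^ k - 1` there is a prime `s ∈ π(F)` dividing `4 ^ k - 1` with `F(2)`
contained in `F(s)`; when `π(F) = {2, s}`, this makes `F` closed under extensions by normal
`s`-subgroups. -/
theorem result (F : GroupClass) (hF : IsLocalFormation F)
    (hher : ∀ (G : Type) [Group G] (H : Subgroup G), F G → F H)
    (hsol : ∀ (G : Type) [Group G], F G → Group.IsSolvable G)
    (hcov : ∀ (G : Type) [Group G] [Finite G], HasCovering F G)
    (h2 : InPi F 2) :
    ClosedUnder F 2 ∨
      (∃ q, InPi F q ∧ ¬ CanonLE F q 2) ∧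
      ∀ q k : ℕ, InPi F q → ¬ CanonLE F q 2 → 0 < k → q ∣ 2 ^ k - 1 →
        ∃ s : ℕ, InPi F s ∧ s ∣ 4 ^ k - 1 ∧ CanonLE F 2 s ∧
          ((∀ p, InPi F p → p = 2 ∨ p = s) → ClosedUnder F s) := by
  obtain ⟨hF1, f, hf⟩ := hF
  exact dichotomy hF1 hf hher hsol hcov h2

end Pool.Agent.Lib.MP_7252b7_al_old.EvenDichotomy
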