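import Pool.Agent.Lib.MP_7252b7_al_h9.Tower

/-!
# Covering subgroups in all finite groups: formations of groups with a normal Sylow subgroup
-/

set_option autoImplicit false

namespace Pool.Agent.Lib.MP_7252b7_al_old.NormalSylow

open Pool.Agent.CoveringSubgroups Pool.Agent.CoveringSubgroups.H9

/-- Let `F` be a hereditary local formation of finite soluble groups with `π(F)` finite and let `p`
be the smallest prime in `π(F)`.  Suppose that all groups in `F` have a normal Sylow `t`-subgroup,
where either `t = p`, or `t ∈ π(F)` and `π(F)` is contained in `{p, t}`.  Then every finite group has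
an `F`-covering subgroup if and only if `F` is closed under extensions by normal `t`-subgroups and
either `π(F)` is contained in `{t, q}` for some `q`, or every finite group of order prime to `t` has
an `F`-covering subgroup. -/
theorem result (F : GroupClass) (hF : IsLocalFormation F)
    (hher : ∀ (G : Type) [Group G] (H : Subgroup G), F G → F H)
    (hsol : ∀ (G : Type) [Group G], F G → Group.IsSolvable G)
    (hfin : {q | InPi F q}.Finite) (p : ℕ) (hp : InPi F p) (hmin : ∀ q, InPi F q → p ≤ q)
    (t : ℕ) (ht : t = p ∨ InPi F t ∧ ∀ r, InPi F r → r = p ∨ r = t)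
    (hcl : ∀ (G : Type) [Group G], F G → ∀ P : Sylow t G, P.toSubgroup.Normal) :
    (∀ (G : Type) [Group G] [Finite G], HasCovering F G) ↔
      ClosedUnder F t ∧ ((∃ q, ∀ r, InPi F r → r = t ∨ r = q) ∨
        ∀ (G : Type) [Group G] [Finite G], ¬ t ∣ Nat.card G → HasCovering F G) := by
  obtain ⟨hF1, f, hf⟩ := hF
  exact normal_sylow_iff hF1 hf hher hsol hfin hp hmin ht hcl

end Pool.Agent.Lib.MP_7252b7_al_old.NormalSylow
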